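import Mathlib
import Pool.Agent.V11216.CoarseBase

/-!
# MP_34945e_gt : products of bo-bounded balleans are bo-bounded
-/

namespace Pool.Agent.Results.MP_34945e_gt.BoProduct

open Set Pool.Agent.V11216.BalleanCore Pool.Agent.V11216.CoarseBase

/-- Balleans in the sense of the problem: every entourage contains the diagonal; for all
entourages `E`, `F` the set `E ∘ F⁻¹ = {(x, z) | ∃ y, (x, y) ∈ E ∧ (z, y) ∈ F}` is contained in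
an entourage; the union of all entourages is `X × X`. -/
structure IsBaseBallean {X : Type*} (𝓔 : Set (Set (X × X))) : Prop where
  diag : ∀ E ∈ 𝓔, {p : X × X | p.1 = p.2} ⊆ E
  comp_inv : ∀ E ∈ 𝓔, ∀ F ∈ 𝓔, ∃ D ∈ 𝓔, {p : X × X | ∃ y, (p.1, y) ∈ E ∧ (p.2, y) ∈ F} ⊆ D
  all : ⋃₀ 𝓔 = univ

/-- Boundedly oscillating functions. (`ball E x = E[x]`, and `IsBounded 𝓔 B` says that `B` is
contained in a ball.) -/
def BoundedlyOscillating {X : Type*} (𝓔 : Set (Set (X × X))) (f : X → ℝ) : Prop :=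
  ∃ C : ℝ, 0 < C ∧ ∀ E ∈ 𝓔, ∃ B, IsBounded 𝓔 B ∧
    ∀ x, x ∉ B → Metric.ediam (f '' ball E x) < ENNReal.ofReal C

/-- bo-bounded balleans: every boundedly oscillating function is bounded off a bounded set. -/
def BoBounded {X : Type*} (𝓔 : Set (Set (X × X))) : Prop :=
  ∀ f : X → ℝ, BoundedlyOscillating 𝓔 f →
    ∃ B, IsBounded 𝓔 B ∧ ∃ M : ℝ, ∀ x, x ∉ B → |f x| ≤ M

/-- The product ballean: the entourages are the sets `E × F`. -/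
def prodBallean {X Y : Type*} (𝓔 : Set (Set (X × X))) (𝓕 : Set (Set (Y × Y))) :
    Set (Set ((X × Y) × (X × Y))) :=
  {G | ∃ E ∈ 𝓔, ∃ F ∈ 𝓕, G = prodRel E F}

theorem isBall {X : Type*} {𝓔 : Set (Set (X × X))} (h : IsBaseBallean 𝓔) : IsBall 𝓔 where
  refl E hE x := h.diag E hE rfl
  comp_inv E hE F hF := by
    obtain ⟨D, hD, h'⟩ := h.comp_inv E hE F hF
    exact ⟨D, hD, fun x y z h1 h2 => h' ⟨y, h1, h2⟩⟩
  all x y := by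
    have := eq_univ_iff_forall.1 h.all (x, y)
    obtain ⟨E, hE, hxy⟩ := this
    exact ⟨E, hE, hxy⟩

theorem bdd_iff' {X : Type*} {𝓔 : Set (Set (X × X))} {B : Set X} :
    Bdd 𝓔 B ↔ IsBounded 𝓔 B := Iff.rfl

theorem nonempty_of {X : Type*} {𝓔 : Set (Set (X × X))} (h : BoBounded 𝓔) : 𝓔.Nonempty := by
  by_contra hne
  obtain ⟨B, ⟨E, hE, -⟩, -⟩ := h (fun _ => 0)
    ⟨1, one_pos, fun E hE => absurd ⟨E, hE⟩ hne⟩
  exact hne ⟨E, hE⟩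

theorem lipBdd {X Y : Type*} {𝓔 : Set (Set (X × X))} {𝓕 : Set (Set (Y × Y))}
    (hY : IsBaseBallean 𝓕) (hXs : BoBounded 𝓔) (h𝓕 : 𝓕.Nonempty)
    (f : X → Y → ℝ) (M₀ : ℝ) (hM₀ : 0 < M₀)
    (hf : ∀ E ∈ 𝓔, ∀ F ∈ 𝓕, ∃ B C, Bdd 𝓔 B ∧
      Bdd 𝓕 C ∧ ∀ x y, ¬ (x ∈ B ∧ y ∈ C) → ∀ x' y', (x, x') ∈ E → (y, y') ∈ F →
        |f x y - f x' y'| ≤ M₀) : LipBdd 𝓔 f := by
  intro φ hφ
  obtain ⟨F, hF⟩ := h𝓕
  refine hXs φ ⟨2 * M₀ + 1, by linarith, ?_⟩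
  intro E hE
  obtain ⟨B, C, hB, hC, h⟩ := hf E hE F hF
  refine ⟨B, hB, fun x hx => ?_⟩
  refine lt_of_le_of_lt (ediam_le_of_abs (c := M₀) (m := φ x) hM₀.le ?_)
    ((ENNReal.ofReal_lt_ofReal_iff (by linarith)).2 (by linarith))
  intro x' hx'
  apply hφ
  intro y
  exact h x y (fun h => hx h.1) x' y hx' (hY.diag F hF rfl)

/-- The product of two bo-bounded balleans is bo-bounded. -/
theorem result {X Y : Type*} (𝓔 : Set (Set (X × X))) (𝓕 : Set (Set (Y × Y)))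
    (hX : IsBaseBallean 𝓔) (hY : IsBaseBallean 𝓕) (hXs : BoBounded 𝓔) (hYs : BoBounded 𝓕) :
    BoBounded (prodBallean 𝓔 𝓕) := by
  rintro f ⟨M₀, hM₀, hf⟩
  have h𝓔 := nonempty_of hXs
  have h𝓕 := nonempty_of hYs
  have hne : Nonempty (X × Y) := by
    obtain ⟨E, hE⟩ := h𝓔
    obtain ⟨F, hF⟩ := h𝓕
    obtain ⟨B, ⟨-, -, p, -⟩, -⟩ := hf _ ⟨E, hE, F, hF, rfl⟩
    exact ⟨p⟩
  have : Nonempty X := hne.map Prod.fst
  have : Nonempty Y := hne.map Prod.snd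
  -- the oscillation condition
  have key : ∀ E ∈ 𝓔, ∀ F ∈ 𝓕, ∃ B C, Bdd 𝓔 B ∧
      Bdd 𝓕 C ∧ ∀ x y, ¬ (x ∈ B ∧ y ∈ C) → ∀ x' y', (x, x') ∈ E → (y, y') ∈ F →
        |f (x, y) - f (x', y')| ≤ M₀ := by
    intro E hE F hF
    obtain ⟨D, ⟨_, ⟨E', hE', F', hF', rfl⟩, q, hq⟩, h⟩ := hf (prodRel E F) ⟨E, hE, F, hF, rfl⟩
    refine ⟨ball E' q.1, ball F' q.2, ⟨E', hE', _, fun y hy => hy⟩, ⟨F', hF', _, fun y hy => hy⟩,
      ?_⟩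
    intro x y hxy x' y' hx' hy'
    have hnD : (x, y) ∉ D := fun h' => hxy (hq h')
    exact abs_le_of_ediam (S := ball (prodRel E F) (x, y)) hM₀.le (h _ hnD).le
      ⟨hX.diag E hE rfl, hY.diag F hF rfl⟩ ⟨hx', hy'⟩
  have h0 : Emu 𝓔 𝓕 (fun x y => f (x, y)) := by
    intro E hE F hF
    obtain ⟨B, C, hB, hC, h⟩ := key E hE F hF
    exact ⟨B, C, hB, hC, M₀, h⟩
  have hx : LipBdd 𝓔 (fun x y => f (x, y)) := lipBdd hY hXs h𝓕 _ M₀ hM₀ key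
  have hy : LipBdd 𝓕 (fun y x => f (x, y)) := by
    apply lipBdd hX hYs h𝓔 _ M₀ hM₀
    intro F hF E hE
    obtain ⟨B, C, hB, hC, h⟩ := key E hE F hF
    exact ⟨C, B, hC, hB, fun y x hyx y' x' hy hx => h x y (fun h => hyx ⟨h.2, h.1⟩) x' y' hx hy⟩
  obtain ⟨B, C, hB, hC, M, hM⟩ := core (isBall hX) (isBall hY) h0 hx hy
  obtain ⟨E, hE, x, hBE⟩ := hB
  obtain ⟨F, hF, y, hCF⟩ := hC
  refine ⟨B ×ˢ C, ⟨prodRel E F, ⟨E, hE, F, hF, rfl⟩, (x, y), ?_⟩, M, ?_⟩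
  · rintro p ⟨h1, h2⟩
    exact ⟨hBE _ h1, hCF _ h2⟩
  · rintro ⟨x, y⟩ h
    exact hM x y (fun h' => h h')

end Pool.Agent.Results.MP_34945e_gt.BoProduct
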